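import Pool.Agent.X76.NoCol

set_option autoImplicit false

namespace Pool.Agent.Results.MP_193372_co.VetoMax

/-- A veto interval representation of `G`: pairwise distinct triples `l a < v a < r a`, distinct
vertices being adjacent iff `v a < l b < r a < v b` or `v b < l a < r b < v a`. -/
structure Rep {V : Type} (G : SimpleGraph V) (l v r : V → ℝ) : Prop where
  lt : ∀ a, l a < v a ∧ v a < r a
  inj : Function.Injective (fun a => (l a, v a, r a))
  adj : ∀ a b, a ≠ b → (G.Adj a b ↔
    (v a < l b ∧ l b < r a ∧ r a < v b) ∨ (v b < l a ∧ l a < r b ∧ r b < v a))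

/-- all intervals have the same length -/
def IsUnit {V : Type} (l r : V → ℝ) : Prop := ∀ a b, r a - l a = r b - l b

/-- no interval properly contains another -/
def IsProper {V : Type} (l r : V → ℝ) : Prop :=
  ∀ a b, ¬ (Set.Icc (l a) (r a) ⊂ Set.Icc (l b) (r b))

/-- every veto mark is the midpoint of its interval -/
def IsMidpoint {V : Type} (l v r : V → ℝ) : Prop := ∀ a, v a = (l a + r a) / 2

/-- unit veto interval graphs -/
def UVI {V : Type} (G : SimpleGraph V) : Prop := ∃ l v r, Rep G l v r ∧ IsUnit l r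

/-- midpoint unit veto interval graphs -/
def MUVI {V : Type} (G : SimpleGraph V) : Prop :=
  ∃ l v r, Rep G l v r ∧ IsUnit l r ∧ IsMidpoint l v r

/-- midpoint proper veto interval graphs -/
def MPVI {V : Type} (G : SimpleGraph V) : Prop :=
  ∃ l v r, Rep G l v r ∧ IsProper l r ∧ IsMidpoint l v r

/-! ### upper bound 4 for unit graphs -/

lemma uvi_colorable {V : Type} (G : SimpleGraph V) (h : UVI G) : G.Colorable 4 := by
  classical
  obtain ⟨l, v, r, h, hu⟩ := h
  rcases isEmpty_or_nonempty V with hV | ⟨⟨a0⟩⟩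
  · exact ⟨SimpleGraph.Coloring.mk (fun x => (hV.false x).elim)
      (fun {x} => (hV.false x).elim)⟩
  set L := r a0 - l a0 with hL
  have hLpos : 0 < L := by
    have := h.lt a0; linarith
  have hr : ∀ a, r a = l a + L := fun a => by have := hu a a0; linarith
  -- the cell of the left end point
  let n : V → ℤ := fun a => ⌊l a / L⌋
  have hn1 : ∀ a, (n a : ℝ) * L ≤ l a := fun a => by
    have := Int.floor_le (l a / L)
    rwa [le_div_iff₀ hLpos] at this
  have hn2 : ∀ a, l a < ((n a : ℝ) + 1) * L := fun a => by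
    have := Int.lt_floor_add_one (l a / L)
    rwa [div_lt_iff₀ hLpos] at this
  have key : ∀ a b, v a < l b → l b < r a → r a < v b →
      ((n b : ℤ) % 2 = n a % 2) → (decide (v a < ((n a : ℝ) + 1) * L) =
        decide (v b < ((n b : ℝ) + 1) * L)) → False := by
    intro a b h1 h2 h3 h4 h5
    have ha := h.lt a
    have hb := h.lt b
    have e1 : n a ≤ n b := by
      apply Int.floor_le_floor
      apply div_le_div_of_nonneg_right _ hLpos.le
      linarith
    have e2 : n b ≤ n a + 1 := by
      have : (n b : ℝ) < n a + 2 := by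
        have q1 := hn1 b
        have q2 := hn2 a
        have q3 := hr a
        by_contra hcon
        rw [not_lt] at hcon
        have : ((n a : ℝ) + 2) * L ≤ n b * L := by
          apply mul_le_mul_of_nonneg_right hcon hLpos.le
        nlinarith
      have : n b < n a + 2 := by exact_mod_cast this
      omega
    have e3 : n b = n a := by omega
    rw [e3] at h5
    have q1 := hn1 a
    have q2 := hn2 b
    rw [e3] at q2
    have q3 := hr a
    by_cases h6 : v a < ((n a : ℝ) + 1) * L
    · have h7 : v b < ((n a : ℝ) + 1) * L := by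
        have : decide (v b < ((n a : ℝ) + 1) * L) = true := by
          rw [← h5]; exact decide_eq_true h6
        exact of_decide_eq_true this
      have : r a ≥ ((n a : ℝ) + 1) * L := by rw [q3]; nlinarith
      linarith
    · rw [not_lt] at h6
      linarith
  refine ⟨SimpleGraph.Coloring.mk (fun a => (⟨2 * ((n a) % 2).toNat +
    (decide (v a < ((n a : ℝ) + 1) * L)).toNat, ?_⟩ : Fin 4)) ?_⟩
  · have := Bool.toNat_le (decide (v a < ((n a : ℝ) + 1) * L))
    omega
  · intro a b hab heq
    simp only [Fin.mk.injEq] at heq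
    have b1 := Bool.toNat_le (decide (v a < ((n a : ℝ) + 1) * L))
    have b2 := Bool.toNat_le (decide (v b < ((n b : ℝ) + 1) * L))
    have h4 : n b % 2 = n a % 2 := by omega
    have h5 : (decide (v a < ((n a : ℝ) + 1) * L)).toNat =
        (decide (v b < ((n b : ℝ) + 1) * L)).toNat := by omega
    have h6 : decide (v a < ((n a : ℝ) + 1) * L) = decide (v b < ((n b : ℝ) + 1) * L) := by
      revert h5
      generalize decide (v a < ((n a : ℝ) + 1) * L) = x
      generalize decide (v b < ((n b : ℝ) + 1) * L) = y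
      revert x y
      decide
    rcases (h.adj a b hab.ne).1 hab with ⟨h1, h2, h3⟩ | ⟨h1, h2, h3⟩
    · exact key a b h1 h2 h3 h4 h6
    · exact key b a h1 h2 h3 h4.symm h6.symm

/-! ### upper bound 3 for monotone marks -/

/-- three-colourability when left ends, marks and right ends come in the same order -/
lemma mono_colorable {V : Type} [Finite V] (G : SimpleGraph V) (l v r : V → ℝ) (h : Rep G l v r)
    (hord : ∀ a b, a ≠ b → (l a < l b ∧ v a < v b ∧ r a < r b) ∨
      (l b < l a ∧ v b < v a ∧ r b < r a)) : G.Colorable 3 := by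
  classical
  have : Fintype V := Fintype.ofFinite V
  -- the strict order: `y` is beyond `x`
  let R : V → V → Prop := fun x y => v x ≤ l y ∧ r x ≤ v y
  have hR : ∀ x y, R x y → l x < l y := fun x y h1 => lt_of_lt_of_le (h.lt x).1 h1.1
  have hwf : WellFounded R := by
    have h1 : IsTrans V R := ⟨fun x y z h1 h2 =>
      ⟨(h1.1.trans (h.lt y).1.le).trans h2.1, (h1.2.trans (h.lt y).2.le).trans h2.2⟩⟩
    have h2 : Std.Irrefl R := ⟨fun x h3 => lt_irrefl _ (hR x x h3)⟩
    exact Finite.wellFounded_of_trans_of_irrefl R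
  -- the height of `y` in the strict order
  let b : V → ℕ := hwf.fix (fun y ih =>
    (Finset.univ.filter (fun x => R x y)).attach.sup
      (fun x => ih x.1 (by have := x.2; rw [Finset.mem_filter] at this; exact this.2) + 1))
  have hb : ∀ y, b y = (Finset.univ.filter (fun x => R x y)).attach.sup (fun x => b x.1 + 1) :=
    fun y => hwf.fix_eq _ y
  have P1 : ∀ x y, R x y → b x + 1 ≤ b y := by
    intro x y hxy
    rw [hb y]
    exact Finset.le_sup (f := fun x : {x // x ∈ Finset.univ.filter (fun x => R x y)} => b x.1 + 1)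
      (Finset.mem_attach _ ⟨x, by simp [hxy]⟩)
  have P2 : ∀ y k, b y = k + 1 → ∃ x, R x y ∧ b x = k := by
    intro y k hk
    have hne : ((Finset.univ.filter (fun x => R x y)).attach).Nonempty := by
      by_contra hcon
      rw [Finset.not_nonempty_iff_eq_empty] at hcon
      have := hb y
      rw [hcon, Finset.sup_empty] at this
      have h0 : (⊥ : ℕ) = 0 := rfl
      omega
    obtain ⟨x, -, hx⟩ := Finset.exists_mem_eq_sup _ hne
      (fun x : {x // x ∈ Finset.univ.filter (fun x => R x y)} => b x.1 + 1)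
    rw [← hb y, hk] at hx
    refine ⟨x.1, ?_, ?_⟩
    · have := x.2
      rw [Finset.mem_filter] at this
      exact this.2
    · have hx' : k + 1 = b x.1 + 1 := hx
      omega
  have P3 : ∀ x y, l x < l y → b x ≤ b y := by
    intro x y hxy
    have hord' : v x < v y := by
      rcases hord x y (by rintro rfl; exact lt_irrefl _ hxy) with h1 | h1
      · exact h1.2.1
      · exact absurd hxy (not_lt.2 h1.1.le)
    rw [hb x]
    apply Finset.sup_le
    rintro ⟨z, hz⟩ -
    rw [Finset.mem_filter] at hz
    exact P1 z y ⟨hz.2.1.trans hxy.le, hz.2.2.trans hord'.le⟩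
  have key : ∀ x y, v x < l y → l y < r x → r x < v y → b x % 3 = b y % 3 → False := by
    intro x y h1 h2 h3 h4
    have h5 := P1 x y ⟨h1.le, h3.le⟩
    obtain ⟨w, hw1, hw2⟩ := P2 y (b y - 1) (by omega)
    obtain ⟨z, hz1, hz2⟩ := P2 w (b w - 1) (by omega)
    have hzx : x ≠ z := by
      rintro rfl
      omega
    rcases hord x z hzx with h6 | h6
    · have h7 := hw1.1
      have h8 := hz1.2
      linarith
    · have := P3 z x h6.1
      omega
  refine ⟨SimpleGraph.Coloring.mk (fun a => (⟨b a % 3, by omega⟩ : Fin 3)) ?_⟩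
  intro x y hxy heq
  simp only [Fin.mk.injEq] at heq
  rcases (h.adj x y hxy.ne).1 hxy with ⟨h1, h2, h3⟩ | ⟨h1, h2, h3⟩
  · exact key x y h1 h2 h3 heq
  · exact key y x h1 h2 h3 heq.symm

lemma mpvi_colorable {V : Type} [Finite V] (G : SimpleGraph V) (h : MPVI G) : G.Colorable 3 := by
  obtain ⟨l, v, r, h, hp, hm⟩ := h
  apply mono_colorable G l v r h
  -- a proper family of intervals with midpoint marks is ordered
  have key : ∀ a b, a ≠ b → l a < l b → (l a < l b ∧ v a < v b ∧ r a < r b) := by
    intro a b _ hl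
    have hr : r a < r b := by
      by_contra hcon
      rw [not_lt] at hcon
      apply hp b a
      rw [Set.ssubset_iff_subset_ne]
      refine ⟨Set.Icc_subset_Icc hl.le hcon, fun heq => ?_⟩
      have : l a ∈ Set.Icc (l b) (r b) := by
        rw [heq]
        exact ⟨le_rfl, by have := h.lt a; linarith⟩
      exact absurd this.1 (not_le.2 hl)
    refine ⟨hl, ?_, hr⟩
    rw [hm a, hm b]; linarith
  intro a b hab
  rcases lt_trichotomy (l a) (l b) with hl | hl | hl
  · exact Or.inl (key a b hab hl)
  · exfalso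
    have hr : r a = r b := by
      rcases lt_trichotomy (r a) (r b) with h1 | h1 | h1
      · exfalso
        apply hp a b
        rw [Set.ssubset_iff_subset_ne]
        refine ⟨Set.Icc_subset_Icc hl.ge h1.le, fun heq => ?_⟩
        have : r b ∈ Set.Icc (l a) (r a) := by
          rw [heq]
          exact ⟨by have := h.lt b; linarith, le_rfl⟩
        exact absurd this.2 (not_le.2 h1)
      · exact h1
      · exfalso
        apply hp b a
        rw [Set.ssubset_iff_subset_ne]
        refine ⟨Set.Icc_subset_Icc hl.le h1.le, fun heq => ?_⟩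
        have : r a ∈ Set.Icc (l b) (r b) := by
          rw [heq]
          exact ⟨by have := h.lt a; linarith, le_rfl⟩
        exact absurd this.2 (not_le.2 h1)
    apply hab
    apply h.inj
    simp only [Prod.mk.injEq]
    exact ⟨hl, by rw [hm a, hm b, hl, hr], hr⟩
  · exact Or.inr (key b a hab.symm hl)

lemma muvi_mpvi {V : Type} (G : SimpleGraph V) (h : MUVI G) : MPVI G := by
  obtain ⟨l, v, r, h, hu, hm⟩ := h
  refine ⟨l, v, r, h, ?_, hm⟩
  intro a b hab
  rw [Set.ssubset_iff_subset_ne] at hab
  have hla := h.lt a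
  have hlb := h.lt b
  have hab' := hab.1
  rw [Set.Icc_subset_Icc_iff (by linarith)] at hab'
  have := hu a b
  apply hab.2
  have e1 : l a = l b := by linarith [hab'.1, hab'.2]
  have e2 : r a = r b := by linarith [hab'.1, hab'.2]
  rw [e1, e2]

/-! ### a unit veto interval graph with chromatic number four -/

/-- left end points (scaled by two) -/
def L1 (i : ℕ) : ℤ :=
  2 * ([0, 2, 2, 4, 4, 6, 6, 7, 8, 9, 9, 11, 11, 13, 13, 15].getD i 0 : ℤ)

/-- veto marks -/
def V1 (i : ℕ) : ℤ :=
  L1 i + 2 * ([0, 1, 6, 0, 6, 0, 6, 7, 0, 1, 7, 1, 6, 1, 6, 7].getD i 0 : ℤ) + 1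

/-- adjacency -/
def adj1 (a b : ℕ) : Bool :=
  (decide (V1 a < L1 b) && decide (L1 b < L1 a + 16) && decide (L1 a + 16 < V1 b)) ||
  (decide (V1 b < L1 a) && decide (L1 a < L1 b + 16) && decide (L1 b + 16 < V1 a))

/-- the graph on 16 vertices -/
def G1 : SimpleGraph (Fin 16) where
  Adj a b := adj1 a b = true
  symm := ⟨by decide +kernel⟩
  loopless := ⟨by decide +kernel⟩

lemma G1_uvi : UVI G1 := by
  refine ⟨fun i => (L1 i : ℝ), fun i => (V1 i : ℝ), fun i => ((L1 i + 16 : ℤ) : ℝ), ⟨?_, ?_, ?_⟩,
    ?_⟩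
  · have h : ∀ a : Fin 16, L1 a < V1 a ∧ V1 a < L1 a + 16 := by decide +kernel
    intro a
    exact ⟨by exact_mod_cast (h a).1, by exact_mod_cast (h a).2⟩
  · have h : ∀ a b : Fin 16, L1 a = L1 b → V1 a = V1 b → a = b := by decide +kernel
    intro a b hab
    simp only [Prod.mk.injEq] at hab
    exact h a b (by exact_mod_cast hab.1) (by exact_mod_cast hab.2.1)
  · intro a b _
    show adj1 a b = true ↔ _
    unfold adj1
    simp only [Bool.or_eq_true, Bool.and_eq_true, decide_eq_true_eq, and_assoc]
    norm_cast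
  · intro a b
    push_cast
    ring

lemma G1_not : ¬ G1.Colorable 3 :=
  Pool.Agent.X76.not_colorable_of_noCol G1 adj1 (fun _ _ h => h) 3 (by decide +kernel)

/-! ### the 5-cycle -/

/-- left end points -/
def L2 (i : ℕ) : ℤ := 2 * ([0, 2, 5, 7, 10].getD i 0 : ℤ)

/-- adjacency -/
def adj2 (a b : ℕ) : Bool :=
  (decide (L2 a + 9 < L2 b) && decide (L2 b < L2 a + 18) && decide (L2 a + 18 < L2 b + 9)) ||
  (decide (L2 b + 9 < L2 a) && decide (L2 a < L2 b + 18) && decide (L2 b + 18 < L2 a + 9))

/-- the 5-cycle -/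
def G2 : SimpleGraph (Fin 5) where
  Adj a b := adj2 a b = true
  symm := ⟨by decide +kernel⟩
  loopless := ⟨by decide +kernel⟩

lemma G2_muvi : MUVI G2 := by
  refine ⟨fun i => (L2 i : ℝ), fun i => ((L2 i + 9 : ℤ) : ℝ), fun i => ((L2 i + 18 : ℤ) : ℝ),
    ⟨?_, ?_, ?_⟩, ?_, ?_⟩
  · intro a
    constructor
    · push_cast; linarith
    · push_cast; linarith
  · have h : ∀ a b : Fin 5, L2 a = L2 b → a = b := by decide +kernel
    intro a b hab
    simp only [Prod.mk.injEq] at hab
    exact h a b (by exact_mod_cast hab.1)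
  · intro a b _
    show adj2 a b = true ↔ _
    unfold adj2
    simp only [Bool.or_eq_true, Bool.and_eq_true, decide_eq_true_eq, and_assoc]
    norm_cast
  · intro a b
    push_cast
    ring
  · intro a
    push_cast
    ring

lemma G2_not : ¬ G2.Colorable 2 :=
  Pool.Agent.X76.not_colorable_of_noCol G2 adj2 (fun _ _ h => h) 2 (by decide +kernel)

lemma chi_eq {V : Type} {G : SimpleGraph V} {k : ℕ} (h1 : G.Colorable (k + 1))
    (h2 : ¬ G.Colorable k) : G.chromaticNumber = ((k + 1 : ℕ) : ℕ∞) := by
  apply le_antisymm h1.chromaticNumber_le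
  by_contra hlt
  rw [not_le] at hlt
  have h3 : G.chromaticNumber ≤ (k : ℕ∞) := by
    have : G.chromaticNumber < (k : ℕ∞) + 1 := by exact_mod_cast hlt
    exact Order.le_of_lt_add_one this
  exact h2 (SimpleGraph.chromaticNumber_le_iff_colorable.1 h3)

/-- `m` is the largest chromatic number of a finite graph with the property `C`. -/
def IsChiMax (C : ∀ {V : Type}, SimpleGraph V → Prop) (m : ℕ) : Prop :=
  (∀ (V : Type) (_ : Finite V) (G : SimpleGraph V), C G → G.chromaticNumber ≤ (m : ℕ∞)) ∧
    ∃ (V : Type) (_ : Finite V) (G : SimpleGraph V), C G ∧ G.chromaticNumber = (m : ℕ∞)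

/-- The maximum chromatic numbers of unit, of midpoint unit and of midpoint proper veto interval
graphs are `4`, `3` and `3`. -/
theorem result : IsChiMax @UVI 4 ∧ IsChiMax @MUVI 3 ∧ IsChiMax @MPVI 3 := by
  refine ⟨⟨?_, ?_⟩, ⟨?_, ?_⟩, ⟨?_, ?_⟩⟩
  · intro V _ G h
    exact (uvi_colorable G h).chromaticNumber_le
  · exact ⟨_, inferInstance, G1, G1_uvi, chi_eq (uvi_colorable G1 G1_uvi) G1_not⟩
  · intro V _ G h
    exact (mpvi_colorable G (muvi_mpvi G h)).chromaticNumber_le
  · exact ⟨_, inferInstance, G2, G2_muvi, chi_eq (mpvi_colorable G2 (muvi_mpvi G2 G2_muvi)) G2_not⟩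
  · intro V _ G h
    exact (mpvi_colorable G h).chromaticNumber_le
  · exact ⟨_, inferInstance, G2, muvi_mpvi G2 G2_muvi,
      chi_eq (mpvi_colorable G2 (muvi_mpvi G2 G2_muvi)) G2_not⟩

end Pool.Agent.Results.MP_193372_co.VetoMax
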